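import Pool.Agent.H10.PosIso

namespace Pool.Agent.Results.MP_cf3d36_an.Positive

theorem result (K L : Type) [MetricSpace K] [CompactSpace K] [Uncountable K]
    [MetricSpace L] [CompactSpace L] [Uncountable L] :
    (∃ T : C(K, ℝ) ≃L[ℝ] C(unitInterval, ℝ), ∀ f : C(K, ℝ), (∀ x, 0 ≤ f x) → ∀ y, 0 ≤ T f y) ∧
    (∃ T : C(K, ℝ) ≃L[ℝ] C(unitInterval, ℝ),
      ∀ g : C(unitInterval, ℝ), (∀ y, 0 ≤ g y) → ∀ x, 0 ≤ T.symm g x) ∧
    ∃ T : C(K, ℝ) ≃L[ℝ] C(L, ℝ), ∀ f : C(K, ℝ), (∀ x, 0 ≤ f x) → ∀ y, 0 ≤ T f y := by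
  have hI : Uncountable unitInterval := by
    rw [← Cardinal.aleph0_lt_mk_iff, Cardinal.mk_Icc_real zero_lt_one]
    exact Cardinal.aleph0_lt_continuum
  refine ⟨Pool.Agent.H10.PosIso.main K unitInterval, ?_, Pool.Agent.H10.PosIso.main K L⟩
  obtain ⟨T, hT⟩ := Pool.Agent.H10.PosIso.main unitInterval K
  exact ⟨T.symm, hT⟩

end Pool.Agent.Results.MP_cf3d36_an.Positive
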